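import Pool.Agent.NGM.StmtsL

/-!
Squad NGM, row CLG: compact linear groups of polynomial growth are virtually commutative.
-/

set_option autoImplicit false

universe u v

namespace Pool.Agent.NGM.H47

open Filter
open scoped Pointwise

section Combinatorial

variable {Q : Type u} [Group Q]

/-- iterated commutators -/
def cm (g h : Q) : ℕ → Q
  | 0 => g
  | k + 1 => cm g h k * h * (cm g h k)⁻¹ * h⁻¹

/-- ordered products of powers -/
def pr (c : ℕ → Q) (i : ℕ → ℕ) : ℕ → ℕ → Q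
  | _, 0 => 1
  | j, n + 1 => c j ^ i j * pr c i (j + 1) n

/-- A length-like function: `N g` plays the role of `‖π g - 1‖`. -/
structure Len (N : Q → ℝ) : Prop where
  nn : ∀ g, 0 ≤ N g
  one : N 1 = 0
  mul : ∀ g h, N (g * h) ≤ N g + N h
  inv : ∀ g, N g⁻¹ = N g
  com : ∀ g h, N (g * h * g⁻¹ * h⁻¹) ≤ 2 * N g * N h
  pow : ∀ g (r : ℕ), 1 ≤ r → r * N g ≤ 1 → N g / 2 ≤ N (g ^ r)

variable {N : Q → ℝ}

theorem Len.pow_le (hN : Len N) (g : Q) (r : ℕ) : N (g ^ r) ≤ r * N g := by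
  induction r with
  | zero => simp [hN.one]
  | succ r ih =>
    rw [pow_succ]
    have := hN.mul (g ^ r) g
    push_cast
    linarith

variable {M : ℕ} {η : ℝ}

theorem pr_le (hN : Len N) (c : ℕ → Q) (i : ℕ → ℕ) (hi : ∀ k, i k ≤ M)
    (_hη : 0 ≤ η) (hη1 : 2 * η ≤ 1) (hc : ∀ k, N (c (k + 1)) ≤ η * N (c k)) (n : ℕ) :
    ∀ j, N (pr c i j n) ≤ 2 * M * N (c j) := by
  induction n with
  | zero =>
    intro j
    have := hN.nn (c j)
    simp only [pr, hN.one]
    positivity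
  | succ n ih =>
    intro j
    simp only [pr]
    have h1 := hN.mul (c j ^ i j) (pr c i (j + 1) n)
    have h2 := hN.pow_le (c j) (i j)
    have h3 := ih (j + 1)
    have h4 := hc j
    have h5 := hN.nn (c j)
    have h6 : (i j : ℝ) ≤ M := by exact_mod_cast hi j
    have h7 : (i j : ℝ) * N (c j) ≤ M * N (c j) := mul_le_mul_of_nonneg_right h6 h5
    have h8 : 2 * (M : ℝ) * N (c (j + 1)) ≤ 2 * M * (η * N (c j)) :=
      mul_le_mul_of_nonneg_left h4 (by positivity)
    have h9 : 2 * (M : ℝ) * (η * N (c j)) ≤ M * N (c j) := by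
      have : (M : ℝ) * N (c j) * (2 * η) ≤ M * N (c j) * 1 :=
        mul_le_mul_of_nonneg_left hη1 (by positivity)
      nlinarith
    linarith

theorem pr_inj_aux (hN : Len N) (c : ℕ → Q) (hη : 0 ≤ η) (hη1 : 2 * η ≤ 1)
    (hη2 : 16 * M * η ≤ 1)
    (hc : ∀ k, N (c (k + 1)) ≤ η * N (c k)) (hM : ∀ k, M * N (c k) ≤ 1)
    (hpos : ∀ k, 0 < N (c k)) (i i' : ℕ → ℕ) (hi : ∀ k, i k ≤ M) (hi' : ∀ k, i' k ≤ M)
    (j n : ℕ) (h : c j ^ i j * pr c i (j + 1) n = c j ^ i' j * pr c i' (j + 1) n) :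
    ¬ i j < i' j := by
  intro hlt
  obtain ⟨r, hr⟩ := Nat.exists_eq_add_of_lt hlt
  have h1 : c j ^ (r + 1) = pr c i (j + 1) n * (pr c i' (j + 1) n)⁻¹ := by
    have h2 : c j ^ i' j = c j ^ i j * c j ^ (r + 1) := by
      rw [hr, ← pow_add]
      rfl
    rw [h2, mul_assoc] at h
    have h3 := mul_left_cancel h
    rw [h3]
    group
  have h2 : N (c j ^ (r + 1)) ≤ 2 * M * N (c (j + 1)) + 2 * M * N (c (j + 1)) := by
    rw [h1]
    refine (hN.mul _ _).trans ?_
    rw [hN.inv]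
    exact add_le_add (pr_le hN c i hi hη hη1 hc n _) (pr_le hN c i' hi' hη hη1 hc n _)
  have h3 : N (c j) / 2 ≤ N (c j ^ (r + 1)) := by
    apply hN.pow _ _ (by omega)
    have h4 : ((r + 1 : ℕ) : ℝ) ≤ M := by
      have := hi' j
      exact_mod_cast (by omega : r + 1 ≤ M)
    exact (mul_le_mul_of_nonneg_right h4 (hN.nn _)).trans (hM j)
  have h4 := hc j
  have h5 := hpos j
  have h6 : (M : ℝ) * N (c (j + 1)) ≤ M * (η * N (c j)) :=
    mul_le_mul_of_nonneg_left h4 (by positivity)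
  have h7 : 16 * M * η * N (c j) ≤ 1 * N (c j) := mul_le_mul_of_nonneg_right hη2 h5.le
  nlinarith

theorem pr_inj (hN : Len N) (c : ℕ → Q) (hη : 0 ≤ η) (hη1 : 2 * η ≤ 1)
    (hη2 : 16 * M * η ≤ 1)
    (hc : ∀ k, N (c (k + 1)) ≤ η * N (c k)) (hM : ∀ k, M * N (c k) ≤ 1)
    (hpos : ∀ k, 0 < N (c k)) (i i' : ℕ → ℕ) (hi : ∀ k, i k ≤ M) (hi' : ∀ k, i' k ≤ M)
    (n : ℕ) : ∀ j, pr c i j n = pr c i' j n → ∀ k, k < n → i (j + k) = i' (j + k) := by
  induction n with
  | zero =>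
    intro j _ k hk
    omega
  | succ n ih =>
    intro j h k hk
    simp only [pr] at h
    have h1 := pr_inj_aux hN c hη hη1 hη2 hc hM hpos i i' hi hi' j n h
    have h2 := pr_inj_aux hN c hη hη1 hη2 hc hM hpos i' i hi' hi j n h.symm
    have h3 : i j = i' j := by omega
    rw [h3] at h
    have h4 := mul_left_cancel h
    rcases k with _ | k
    · exact h3
    · have := ih (j + 1) h4 k (by omega)
      have e : j + (k + 1) = j + 1 + k := by omega
      rw [e]
      exact this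

end Combinatorial

section Count

open scoped Classical

variable {Q : Type u} [Group Q] {K : Finset Q}

theorem inv_mem_pow (hK : GenSet K) {a : ℕ} {g : Q} (h : g ∈ K ^ a) : g⁻¹ ∈ K ^ a := by
  have h1 : K⁻¹ = K := by
    ext x
    rw [Finset.mem_inv']
    constructor
    · intro h
      have := hK.inv _ h
      rwa [inv_inv] at this
    · intro h
      exact hK.inv _ h
  have h2 : (K ^ a)⁻¹ = K ^ a := by
    rw [← inv_pow, h1]
  rw [← h2]
  exact Finset.inv_mem_inv h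

theorem pow_mono' (hK : GenSet K) {a b : ℕ} (h : a ≤ b) : K ^ a ⊆ K ^ b :=
  Finset.pow_subset_pow_right hK.one h

theorem gr_mono (hK : GenSet K) {a b : ℕ} (h : a ≤ b) : gr K a ≤ gr K b :=
  Finset.card_le_card (pow_mono' hK h)

theorem exists_mem_pow (hK : GenSet K) (g : Q) : ∃ a, g ∈ K ^ a := by
  have h : g ∈ Subgroup.closure (K : Set Q) := by
    rw [hK.top]
    trivial
  induction h using Subgroup.closure_induction with
  | mem x hx => exact ⟨1, by simpa using hx⟩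
  | one => exact ⟨0, by simp⟩
  | mul x y _ _ hx hy =>
    obtain ⟨a, ha⟩ := hx
    obtain ⟨b, hb⟩ := hy
    exact ⟨a + b, by rw [pow_add]; exact Finset.mul_mem_mul ha hb⟩
  | inv x _ hx =>
    obtain ⟨a, ha⟩ := hx
    exact ⟨a, inv_mem_pow hK ha⟩

theorem cm_mem (hK : GenSet K) {g h : Q} {a b : ℕ} (hg : g ∈ K ^ a) (hh : h ∈ K ^ b) (k : ℕ) :
    ∃ l, l + 2 * b = 2 ^ k * (a + 2 * b) ∧ cm g h k ∈ K ^ l := by
  induction k with
  | zero => exact ⟨a, by ring, hg⟩
  | succ k ih =>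
    obtain ⟨l, hl, hm⟩ := ih
    refine ⟨l + b + l + b, ?_, ?_⟩
    · rw [pow_succ]
      nlinarith
    · simp only [cm]
      rw [pow_add, pow_add, pow_add]
      exact Finset.mul_mem_mul (Finset.mul_mem_mul (Finset.mul_mem_mul hm hh)
        (inv_mem_pow hK hm)) (inv_mem_pow hK hh)

theorem pr_mem (hK : GenSet K) (c : ℕ → Q) (L M : ℕ) (hc : ∀ k, c k ∈ K ^ (2 ^ k * L))
    (i : ℕ → ℕ) (hi : ∀ k, i k ≤ M) (n : ℕ) :
    ∀ j, ∃ l, l + M * L * 2 ^ j ≤ M * L * 2 ^ (j + n) ∧ pr c i j n ∈ K ^ l := by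
  induction n with
  | zero =>
    intro j
    exact ⟨0, by simp, by simp [pr]⟩
  | succ n ih =>
    intro j
    obtain ⟨l, hl, hm⟩ := ih (j + 1)
    refine ⟨2 ^ j * L * M + l, ?_, ?_⟩
    · have e : j + 1 + n = j + (n + 1) := by omega
      rw [e] at hl
      rw [pow_succ] at hl
      nlinarith
    · simp only [pr]
      rw [pow_add]
      refine Finset.mul_mem_mul ?_ hm
      have h1 : c j ^ i j ∈ (K ^ (2 ^ j * L)) ^ i j := Finset.pow_mem_pow (hc j)
      rw [← pow_mul] at h1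
      exact pow_mono' hK (Nat.mul_le_mul_left _ (hi j)) h1

theorem card_le_gr (hK : GenSet K) (c : ℕ → Q) (L M : ℕ) (hc : ∀ k, c k ∈ K ^ (2 ^ k * L))
    (m : ℕ) (hinj : ∀ i i' : ℕ → ℕ, (∀ k, i k ≤ M) → (∀ k, i' k ≤ M) →
      pr c i 0 m = pr c i' 0 m → ∀ k, k < m → i k = i' k) :
    (M + 1) ^ m ≤ gr K (M * L * 2 ^ m) := by
  let e : (Fin m → Fin (M + 1)) → ℕ → ℕ := fun f k => if h : k < m then (f ⟨k, h⟩ : ℕ) else 0
  have he : ∀ f k, e f k ≤ M := by
    intro f k
    simp only [e]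
    split
    · have := (f ⟨k, by assumption⟩).2
      omega
    · omega
  have h1 : ∀ f, pr c (e f) 0 m ∈ K ^ (M * L * 2 ^ m) := by
    intro f
    obtain ⟨l, hl, hm⟩ := pr_mem hK c L M hc (e f) (he f) m 0
    rw [zero_add] at hl
    exact pow_mono' hK (by omega) hm
  have h2 : Function.Injective (fun f => pr c (e f) 0 m) := by
    intro f f' h
    have h3 := hinj (e f) (e f') (he f) (he f') h
    ext k
    have h4 := h3 k k.2
    simpa [e] using h4
  have h3 : Fintype.card (Fin m → Fin (M + 1)) ≤ (K ^ (M * L * 2 ^ m)).card := by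
    rw [← Finset.card_univ]
    exact Finset.card_le_card_of_injOn _ (fun f _ => h1 f) h2.injOn
  simpa [gr] using h3

theorem no_exp (hK : GenSet K) (D : ℕ) (hD : PolyIo K D) (l : ℕ) (hl : 1 ≤ l)
    (h : ∀ m, (2 ^ (D + 2) + 1) ^ m ≤ gr K (l * 2 ^ m)) : False := by
  obtain ⟨C, hC⟩ := hD
  set m₀ := C * (2 * l) ^ D with hm₀
  obtain ⟨n, hn, hn2⟩ := (Filter.frequently_atTop.1 hC) (l * 2 ^ m₀)
  have hnl : 2 ^ m₀ ≤ n / l := (Nat.le_div_iff_mul_le (by omega)).2 (by rw [mul_comm]; exact hn)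
  have hnl0 : n / l ≠ 0 := by
    have : 0 < 2 ^ m₀ := by positivity
    omega
  set m := Nat.log 2 (n / l) with hm
  have h1 : 2 ^ m ≤ n / l := Nat.pow_log_le_self 2 hnl0
  have h2 : n / l < 2 ^ (m + 1) := Nat.lt_pow_succ_log_self (by norm_num) _
  have h3 : m₀ ≤ m := by
    by_contra hcon
    push Not at hcon
    have : 2 ^ (m + 1) ≤ 2 ^ m₀ := Nat.pow_le_pow_right (by norm_num) hcon
    omega
  have h4 : l * 2 ^ m ≤ n := by
    have := (Nat.le_div_iff_mul_le (by omega : 0 < l)).1 h1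
    rw [mul_comm]
    exact this
  have h5 : n ≤ l * 2 ^ (m + 1) := by
    have := (Nat.div_lt_iff_lt_mul (by omega : 0 < l)).1 h2
    rw [mul_comm]
    exact this.le
  have h6 : (2 ^ (D + 2)) ^ m ≤ C * (l * 2 ^ (m + 1)) ^ D := by
    calc (2 ^ (D + 2)) ^ m ≤ (2 ^ (D + 2) + 1) ^ m := Nat.pow_le_pow_left (by omega) _
      _ ≤ gr K (l * 2 ^ m) := h m
      _ ≤ gr K n := gr_mono hK h4
      _ ≤ C * n ^ D := hn2
      _ ≤ C * (l * 2 ^ (m + 1)) ^ D := Nat.mul_le_mul_left _ (Nat.pow_le_pow_left h5 _)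
  have h7 : (2 ^ (D + 2)) ^ m = 4 ^ m * (2 ^ m) ^ D := by
    rw [← pow_mul, ← pow_mul, show (4 : ℕ) = 2 ^ 2 by norm_num, ← pow_mul, ← pow_add]
    congr 1
    ring
  have h8 : C * (l * 2 ^ (m + 1)) ^ D = m₀ * (2 ^ m) ^ D := by
    rw [hm₀, pow_succ, show l * (2 ^ m * 2) = (2 * l) * 2 ^ m by ring, mul_pow]
    ring
  rw [h7, h8] at h6
  have h9 : 4 ^ m ≤ m₀ := Nat.le_of_mul_le_mul_right h6 (by positivity)
  have h10 : m < 4 ^ m := Nat.lt_pow_self (by norm_num)
  omega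

/-- Iterated commutators die. -/
theorem exists_cm_eq_zero (hK : GenSet K) (D : ℕ) (hD : PolyIo K D) {N : Q → ℝ} (hN : Len N)
    (g h : Q) (hg : (2 ^ (D + 2) : ℕ) * N g ≤ 1) (hh : 32 * (2 ^ (D + 2) : ℕ) * N h ≤ 1) :
    ∃ k, N (cm g h k) = 0 := by
  by_contra hcon
  push Not at hcon
  set M : ℕ := 2 ^ (D + 2) with hM
  have hM1 : (1 : ℝ) ≤ M := by
    have : 1 ≤ M := Nat.one_le_two_pow
    exact_mod_cast this
  have hpos : ∀ k, 0 < N (cm g h k) := fun k => lt_of_le_of_ne (hN.nn _) (Ne.symm (hcon k))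
  have hh0 := hN.nn h
  have hc : ∀ k, N (cm g h (k + 1)) ≤ (2 * N h) * N (cm g h k) := by
    intro k
    have := hN.com (cm g h k) h
    simp only [cm]
    linarith
  have h2 : 2 * N h ≤ 1 / 16 := by nlinarith
  have hdec : ∀ k, (M : ℝ) * N (cm g h k) ≤ 1 := by
    intro k
    induction k with
    | zero => exact hg
    | succ k ih =>
      have h3 := hc k
      have h4 := (hpos k).le
      have h5 : N (cm g h (k + 1)) ≤ N (cm g h k) := by nlinarith
      have : (M : ℝ) * N (cm g h (k + 1)) ≤ M * N (cm g h k) :=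
        mul_le_mul_of_nonneg_left h5 (by positivity)
      linarith
  obtain ⟨a, ha⟩ := exists_mem_pow hK g
  obtain ⟨b, hb⟩ := exists_mem_pow hK h
  have ha' : g ∈ K ^ (a + 1) := pow_mono' hK (by omega) ha
  have hmem : ∀ k, cm g h k ∈ K ^ (2 ^ k * (a + 1 + 2 * b)) := by
    intro k
    obtain ⟨l, hl, hm⟩ := cm_mem hK ha' hb k
    exact pow_mono' hK (by omega) hm
  apply no_exp hK D hD (M * (a + 1 + 2 * b))
  · have : 1 ≤ M := Nat.one_le_two_pow
    nlinarith
  · intro m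
    apply card_le_gr hK (cm g h) _ M hmem m
    intro i i' hi hi' heq k hk
    have := pr_inj hN (cm g h) (η := 2 * N h) (by linarith) (by linarith) (by nlinarith)
      hc hdec hpos i i' hi hi' m 0 heq k hk
    simpa using this

end Count

section Isom

variable {V : Type v} [NormedAddCommGroup V] [InnerProductSpace ℝ V]

/-- the operator of a linear isometry -/
noncomputable def op (A : V ≃ₗᵢ[ℝ] V) : V →L[ℝ] V := A.toContinuousLinearEquiv

@[simp] theorem op_apply (A : V ≃ₗᵢ[ℝ] V) (v : V) : op A v = A v := rfl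

theorem op_mul (A B : V ≃ₗᵢ[ℝ] V) : op (A * B) = op A * op B := by
  ext v
  rfl

theorem op_one : op (1 : V ≃ₗᵢ[ℝ] V) = 1 := by
  ext v
  rfl

theorem op_inj {A B : V ≃ₗᵢ[ℝ] V} (h : op A = op B) : A = B := by
  ext v
  exact congrArg (fun f : V →L[ℝ] V => f v) h

theorem norm_op_mul (A : V ≃ₗᵢ[ℝ] V) (X : V →L[ℝ] V) : ‖op A * X‖ ≤ ‖X‖ := by
  refine ContinuousLinearMap.opNorm_le_bound _ (norm_nonneg _) fun v => ?_
  show ‖A (X v)‖ ≤ _
  rw [A.norm_map]
  exact X.le_opNorm v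

theorem norm_mul_op (A : V ≃ₗᵢ[ℝ] V) (X : V →L[ℝ] V) : ‖X * op A‖ ≤ ‖X‖ := by
  refine ContinuousLinearMap.opNorm_le_bound _ (norm_nonneg _) fun v => ?_
  show ‖X (A v)‖ ≤ _
  have := X.le_opNorm (A v)
  rwa [A.norm_map] at this

/-- distance to the identity -/
noncomputable def dist1 (A : V ≃ₗᵢ[ℝ] V) : ℝ := ‖op A - 1‖

theorem dist1_nonneg (A : V ≃ₗᵢ[ℝ] V) : 0 ≤ dist1 A := norm_nonneg _

theorem dist1_one : dist1 (1 : V ≃ₗᵢ[ℝ] V) = 0 := by
  simp [dist1, op_one]

theorem eq_one_of_dist1 {A : V ≃ₗᵢ[ℝ] V} (h : dist1 A = 0) : A = 1 := by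
  apply op_inj
  rw [op_one]
  exact sub_eq_zero.1 (norm_eq_zero.1 h)

theorem dist1_mul (A B : V ≃ₗᵢ[ℝ] V) : dist1 (A * B) ≤ dist1 A + dist1 B := by
  have h : op (A * B) - 1 = op A * (op B - 1) + (op A - 1) := by
    rw [op_mul]
    noncomm_ring
  unfold dist1
  rw [h]
  refine (norm_add_le _ _).trans ?_
  have := norm_op_mul A (op B - 1)
  linarith

theorem op_inv_mul (A : V ≃ₗᵢ[ℝ] V) : op A⁻¹ * op A = 1 := by
  rw [← op_mul, inv_mul_cancel, op_one]

theorem op_mul_inv (A : V ≃ₗᵢ[ℝ] V) : op A * op A⁻¹ = 1 := by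
  rw [← op_mul, mul_inv_cancel, op_one]

theorem dist1_inv_le (A : V ≃ₗᵢ[ℝ] V) : dist1 A⁻¹ ≤ dist1 A := by
  have h : op A⁻¹ - 1 = -(op A⁻¹ * (op A - 1)) := by
    rw [mul_sub, op_inv_mul]
    noncomm_ring
  unfold dist1
  rw [h, norm_neg]
  exact norm_op_mul _ _

theorem dist1_inv (A : V ≃ₗᵢ[ℝ] V) : dist1 A⁻¹ = dist1 A := by
  apply le_antisymm (dist1_inv_le A)
  have := dist1_inv_le A⁻¹
  rwa [inv_inv] at this

theorem dist1_com (A B : V ≃ₗᵢ[ℝ] V) : dist1 (A * B * A⁻¹ * B⁻¹) ≤ 2 * dist1 A * dist1 B := by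
  have h : op (A * B * A⁻¹ * B⁻¹) - 1
      = ((op A - 1) * (op B - 1) - (op B - 1) * (op A - 1)) * op A⁻¹ * op B⁻¹ := by
    have h1 : (op A - 1) * (op B - 1) - (op B - 1) * (op A - 1) = op A * op B - op B * op A := by
      noncomm_ring
    rw [h1, sub_mul, sub_mul, op_mul, op_mul, op_mul]
    have h2 : op B * op A * op A⁻¹ * op B⁻¹ = 1 := by
      rw [mul_assoc (op B), op_mul_inv, mul_one, op_mul_inv]
    rw [h2]
  unfold dist1
  rw [h]
  refine (norm_mul_op _ _).trans ((norm_mul_op _ _).trans ?_)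
  refine (norm_sub_le _ _).trans ?_
  have h1 := norm_mul_le (op A - 1) (op B - 1)
  have h2 := norm_mul_le (op B - 1) (op A - 1)
  nlinarith

theorem op_pow (A : V ≃ₗᵢ[ℝ] V) (r : ℕ) : op (A ^ r) = op A ^ r := by
  induction r with
  | zero => simp [op_one]
  | succ r ih => rw [pow_succ, pow_succ, op_mul, ih]

theorem dist1_pow_le (A : V ≃ₗᵢ[ℝ] V) (r : ℕ) : dist1 (A ^ r) ≤ r * dist1 A := by
  induction r with
  | zero => simp [dist1_one]
  | succ r ih =>
    rw [pow_succ]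
    have := dist1_mul (A ^ r) A
    push_cast
    linarith

theorem dist1_pow_aux (A : V ≃ₗᵢ[ℝ] V) (r : ℕ) :
    ‖op A ^ r - 1 - (r : ℝ) • (op A - 1)‖ ≤ (r : ℝ) ^ 2 * dist1 A ^ 2 / 2 := by
  induction r with
  | zero => simp
  | succ r ih =>
    have h : op A ^ (r + 1) - 1 - ((r + 1 : ℕ) : ℝ) • (op A - 1)
        = (op A ^ r - 1 - (r : ℝ) • (op A - 1)) + (op A ^ r - 1) * (op A - 1) := by
      push_cast
      rw [add_smul, one_smul, pow_succ]
      noncomm_ring
    rw [h]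
    refine (norm_add_le _ _).trans ?_
    have h1 : ‖(op A ^ r - 1) * (op A - 1)‖ ≤ (r * dist1 A) * dist1 A := by
      refine (norm_mul_le _ _).trans ?_
      apply mul_le_mul_of_nonneg_right _ (dist1_nonneg A)
      rw [← op_pow]
      exact dist1_pow_le A r
    have h2 := sq_nonneg (dist1 A)
    push_cast
    nlinarith

theorem dist1_pow (A : V ≃ₗᵢ[ℝ] V) (r : ℕ) (hr : 1 ≤ r) (h : r * dist1 A ≤ 1) :
    dist1 A / 2 ≤ dist1 (A ^ r) := by
  have h1 := dist1_pow_aux A r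
  have h2 : (r : ℝ) * dist1 A ≤ dist1 (A ^ r) + (r : ℝ) ^ 2 * dist1 A ^ 2 / 2 := by
    have h3 : (r : ℝ) * dist1 A = ‖(r : ℝ) • (op A - 1)‖ := by
      rw [norm_smul, Real.norm_natCast]
      rfl
    have h4 : (r : ℝ) • (op A - 1)
        = (op A ^ r - 1) - (op A ^ r - 1 - (r : ℝ) • (op A - 1)) := by
      abel
    rw [h3, h4]
    refine (norm_sub_le _ _).trans ?_
    have h5 : ‖op A ^ r - 1‖ = dist1 (A ^ r) := by
      unfold dist1
      rw [op_pow]
    rw [h5]
    linarith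
  have h0 := dist1_nonneg A
  have hr' : (1 : ℝ) ≤ r := by exact_mod_cast hr
  have h5 : ((r : ℝ) * dist1 A) * (r * dist1 A) ≤ 1 * (r * dist1 A) :=
    mul_le_mul_of_nonneg_right h (by positivity)
  nlinarith

/-- Frobenius: if `A` commutes with `C = A B A⁻¹ B⁻¹` and `‖B - 1‖² < 2` then `C = 1`. -/
theorem frob (A B : V ≃ₗᵢ[ℝ] V) (hB : dist1 B ^ 2 < 2)
    (hC : A * (A * B * A⁻¹ * B⁻¹) = (A * B * A⁻¹ * B⁻¹) * A) : A * B * A⁻¹ * B⁻¹ = 1 := by
  set C := A * B * A⁻¹ * B⁻¹ with hCdef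
  by_contra hne
  have hAB : A * B = C * B * A := by
    rw [hCdef]
    group
  -- A ^ m B = C ^ m B A ^ m
  have hm : ∀ m : ℕ, A ^ m * B = C ^ m * B * A ^ m := by
    intro m
    induction m with
    | zero => simp
    | succ m ih =>
      have hcm : A * C ^ m = C ^ m * A := ((show Commute A C from hC).pow_right m)
      calc A ^ (m + 1) * B = A * (A ^ m * B) := by rw [pow_succ', mul_assoc]
        _ = A * (C ^ m * B * A ^ m) := by rw [ih]
        _ = (A * C ^ m) * B * A ^ m := by simp only [mul_assoc]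
        _ = C ^ m * (A * B) * A ^ m := by rw [hcm]; simp only [mul_assoc]
        _ = C ^ m * (C * B * A) * A ^ m := by rw [hAB]
        _ = C ^ (m + 1) * B * A ^ (m + 1) := by
          rw [pow_succ C, pow_succ' A]
          simp only [mul_assoc]
  -- a vector u moved by C⁻¹
  obtain ⟨u, hu⟩ : ∃ u, C⁻¹ u - u ≠ 0 := by
    by_contra hcon
    push Not at hcon
    apply hne
    have : C⁻¹ = 1 := by
      ext u
      exact sub_eq_zero.1 (hcon u)
    rwa [inv_eq_one] at this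
  set v := C⁻¹ u - u with hv
  have hvpos : 0 < ‖v‖ := norm_pos_iff.2 hu
  set s := dist1 B with hs
  have hs0 : 0 ≤ s := dist1_nonneg B
  -- lower bound
  have hlow : ∀ m : ℕ, (1 - s ^ 2 / 2) * ‖v‖ ^ 2 ≤ inner ℝ ((C ^ m * B) v) v := by
    intro m
    have h1 : C ^ m * B = A ^ m * B * (A ^ m)⁻¹ := by
      rw [hm m]
      group
    set U := C ^ m * B with hU
    have h2 : ‖U v - v‖ ≤ s * ‖v‖ := by
      have h3 : U v - v = (A ^ m) ((op B - 1) ((A ^ m)⁻¹ v)) := by
        have e1 : (A ^ m) ((A ^ m)⁻¹ v) = v := (A ^ m).apply_symm_apply v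
        have e2 : (op B - 1) ((A ^ m)⁻¹ v) = B ((A ^ m)⁻¹ v) - (A ^ m)⁻¹ v := rfl
        rw [e2, (A ^ m).map_sub (B ((A ^ m)⁻¹ v)) ((A ^ m)⁻¹ v), e1, h1]
        rfl
      rw [h3, (A ^ m).norm_map]
      refine ((op B - 1).le_opNorm _).trans ?_
      rw [LinearIsometryEquiv.norm_map]
      rfl
    have h3 : ‖U v - v‖ ^ 2 = 2 * ‖v‖ ^ 2 - 2 * inner ℝ (U v) v := by
      rw [norm_sub_sq_real, U.norm_map]
      ring
    have h4 : ‖U v - v‖ ^ 2 ≤ (s * ‖v‖) ^ 2 := by
      apply pow_le_pow_left₀ (norm_nonneg _) h2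
    nlinarith
  -- telescoping
  have hsum : ∀ M : ℕ, ∑ m ∈ Finset.range M, inner ℝ ((C ^ m * B) v) v
      = inner ℝ (B v) ((C⁻¹ ^ M) u - u) := by
    intro M
    have h1 : ∀ m : ℕ, inner ℝ ((C ^ m * B) v) v = inner ℝ (B v) ((C⁻¹ ^ m) v) := by
      intro m
      have h2 : inner ℝ ((C ^ m * B) v) v
          = inner ℝ ((C⁻¹ ^ m) ((C ^ m * B) v)) ((C⁻¹ ^ m) v) :=
        ((C⁻¹ ^ m).inner_map_map _ _).symm
      rw [h2]
      congr 1
      show (C⁻¹ ^ m * (C ^ m * B)) v = B v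
      rw [← mul_assoc, inv_pow, inv_mul_cancel, one_mul]
    have h2 : ∀ m : ℕ, (C⁻¹ ^ m) v = (C⁻¹ ^ (m + 1)) u - (C⁻¹ ^ m) u := by
      intro m
      rw [hv, map_sub, pow_succ]
      rfl
    calc ∑ m ∈ Finset.range M, inner ℝ ((C ^ m * B) v) v
        = ∑ m ∈ Finset.range M, inner ℝ (B v) ((C⁻¹ ^ (m + 1)) u - (C⁻¹ ^ m) u) := by
          apply Finset.sum_congr rfl
          intro m _
          rw [h1, h2]
      _ = inner ℝ (B v) (∑ m ∈ Finset.range M, ((C⁻¹ ^ (m + 1)) u - (C⁻¹ ^ m) u)) := by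
          rw [inner_sum]
      _ = inner ℝ (B v) ((C⁻¹ ^ M) u - u) := by
          rw [Finset.sum_range_sub (fun m => (C⁻¹ ^ m) u)]
          simp
  have hbound : ∀ M : ℕ, M * ((1 - s ^ 2 / 2) * ‖v‖ ^ 2) ≤ ‖v‖ * (2 * ‖u‖) := by
    intro M
    calc M * ((1 - s ^ 2 / 2) * ‖v‖ ^ 2)
        = ∑ m ∈ Finset.range M, (1 - s ^ 2 / 2) * ‖v‖ ^ 2 := by simp
      _ ≤ ∑ m ∈ Finset.range M, inner ℝ ((C ^ m * B) v) v :=
          Finset.sum_le_sum fun m _ => hlow m
      _ = inner ℝ (B v) ((C⁻¹ ^ M) u - u) := hsum M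
      _ ≤ ‖B v‖ * ‖(C⁻¹ ^ M) u - u‖ := real_inner_le_norm _ _
      _ ≤ ‖v‖ * (2 * ‖u‖) := by
          rw [B.norm_map]
          apply mul_le_mul_of_nonneg_left _ (norm_nonneg _)
          refine (norm_sub_le _ _).trans ?_
          rw [LinearIsometryEquiv.norm_map]
          linarith
  have hcpos : 0 < (1 - s ^ 2 / 2) * ‖v‖ ^ 2 := by
    have : 0 < 1 - s ^ 2 / 2 := by linarith
    positivity
  obtain ⟨M, hM⟩ := exists_nat_gt (‖v‖ * (2 * ‖u‖) / ((1 - s ^ 2 / 2) * ‖v‖ ^ 2))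
  rw [div_lt_iff₀ hcpos] at hM
  exact absurd (hbound M) (not_le.2 hM)

end Isom

section Assembly

open scoped Classical

variable {V : Type v} [NormedAddCommGroup V] [InnerProductSpace ℝ V]

theorem len_of_rep {Q : Type u} [Group Q] (π : Q →* (V ≃ₗᵢ[ℝ] V)) :
    Len (fun g => dist1 (π g)) where
  nn g := dist1_nonneg _
  one := by
    show dist1 (π 1) = 0
    rw [map_one, dist1_one]
  mul g h := by
    show dist1 (π (g * h)) ≤ _
    rw [map_mul]
    exact dist1_mul _ _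
  inv g := by
    show dist1 (π g⁻¹) = _
    rw [map_inv, dist1_inv]
  com g h := by
    show dist1 (π (g * h * g⁻¹ * h⁻¹)) ≤ _
    rw [map_mul, map_mul, map_mul, map_inv, map_inv]
    exact dist1_com _ _
  pow g r hr h := by
    show _ ≤ dist1 (π (g ^ r))
    rw [map_pow]
    exact dist1_pow _ r hr h

/-- Elements close to the identity commute. -/
theorem comm_of_small {Q : Type u} [Group Q] {K : Finset Q} (hK : GenSet K) (D : ℕ)
    (hD : PolyIo K D) (π : Q →* (V ≃ₗᵢ[ℝ] V)) (g h : Q)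
    (hg : 32 * (2 ^ (D + 2) : ℕ) * dist1 (π g) ≤ 1)
    (hh : 32 * (2 ^ (D + 2) : ℕ) * dist1 (π h) ≤ 1) : π g * π h = π h * π g := by
  have hN := len_of_rep π
  set M : ℕ := 2 ^ (D + 2) with hM
  have hM1 : (1 : ℝ) ≤ M := by
    have : 1 ≤ M := Nat.one_le_two_pow
    exact_mod_cast this
  have hg0 := dist1_nonneg (π g)
  have hh0 := dist1_nonneg (π h)
  have hex := exists_cm_eq_zero hK D hD hN g h (by
    show (M : ℝ) * dist1 (π g) ≤ 1
    nlinarith) hh
  have hsmall : ∀ k, dist1 (π (cm g h k)) ≤ 1 := by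
    intro k
    induction k with
    | zero =>
      show dist1 (π g) ≤ 1
      nlinarith
    | succ k ih =>
      have h1 := hN.com (cm g h k) h
      have h1' : dist1 (π (cm g h (k + 1))) ≤ 2 * dist1 (π (cm g h k)) * dist1 (π h) := h1
      have h2 := dist1_nonneg (π (cm g h k))
      have h3 : dist1 (π h) ≤ 1 / 2 := by nlinarith
      nlinarith
  -- descent
  have hdesc : ∀ k, π (cm g h (k + 1)) = 1 → π (cm g h 1) = 1 := by
    intro k
    induction k with
    | zero => exact fun h => h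
    | succ k ih =>
      intro hk
      apply ih
      -- π h commutes with π (cm g h (k+1))
      have h1 : π (cm g h (k + 1)) * π h * (π (cm g h (k + 1)))⁻¹ * (π h)⁻¹ = 1 := by
        have h2 : π (cm g h (k + 1 + 1))
            = π (cm g h (k + 1)) * π h * (π (cm g h (k + 1)))⁻¹ * (π h)⁻¹ := by
          simp only [cm, map_mul, map_inv]
        rw [← h2]
        exact hk
      have h2 : π (cm g h (k + 1)) * π h = π h * π (cm g h (k + 1)) := by
        have h3 := mul_inv_eq_one.1 h1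
        exact mul_inv_eq_iff_eq_mul.1 h3
      have h3 : π (cm g h (k + 1))
          = (π h * π (cm g h k) * (π h)⁻¹ * (π (cm g h k))⁻¹)⁻¹ := by
        simp only [cm, map_mul, map_inv]
        group
      have h4 := frob (π h) (π (cm g h k)) (by
        have := hsmall k
        have h5 := dist1_nonneg (π (cm g h k))
        nlinarith) (by
        have h5 : π h * π (cm g h k) * (π h)⁻¹ * (π (cm g h k))⁻¹
            = (π (cm g h (k + 1)))⁻¹ := by
          rw [h3, inv_inv]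
        rw [h5]
        have h6 : Commute (π h) (π (cm g h (k + 1))) := h2.symm
        exact h6.inv_right)
      rw [h3, h4, inv_one]
  have h1 : π (cm g h 1) = 1 := by
    obtain ⟨k, hk⟩ := hex
    have hk' : π (cm g h k) = 1 := eq_one_of_dist1 hk
    rcases k with _ | k
    · have h2 : π g = 1 := hk'
      simp only [cm, map_mul, map_inv, h2]
      simp
    · exact hdesc k hk'
  have h2 : π g * π h * (π g)⁻¹ * (π h)⁻¹ = 1 := by
    have : π (cm g h 1) = π g * π h * (π g)⁻¹ * (π h)⁻¹ := by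
      simp only [cm, map_mul, map_inv]
    rw [← this]
    exact h1
  exact mul_inv_eq_iff_eq_mul.1 (mul_inv_eq_one.1 h2)

/-- Total boundedness. -/
theorem finiteIndex_small [FiniteDimensional ℝ V] {Q : Type u} [Group Q]
    (π : Q →* (V ≃ₗᵢ[ℝ] V)) (ε : ℝ) (hε : 0 < ε) :
    (Subgroup.closure {g : Q | dist1 (π g) ≤ ε}).FiniteIndex := by
  set H := Subgroup.closure {g : Q | dist1 (π g) ≤ ε} with hH
  have hb : Bornology.IsBounded (Set.range fun g : Q => op (π g)) := by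
    rw [isBounded_iff_forall_norm_le]
    refine ⟨1, ?_⟩
    rintro _ ⟨g, rfl⟩
    refine ContinuousLinearMap.opNorm_le_bound _ zero_le_one fun v => ?_
    rw [op_apply, LinearIsometryEquiv.norm_map, one_mul]
  have : FiniteDimensional ℝ (V →L[ℝ] V) := inferInstance
  have : ProperSpace (V →L[ℝ] V) := FiniteDimensional.proper ℝ _
  have htb : TotallyBounded (Set.range fun g : Q => op (π g)) := hb.isCompact_closure.totallyBounded.subset subset_closure
  obtain ⟨t, ht, hcov⟩ := Metric.totallyBounded_iff.1 htb (ε / 2) (by positivity)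
  have hsel : ∀ g : Q, ∃ y : t, dist (op (π g)) y < ε / 2 := by
    intro g
    have h1 := hcov ⟨g, rfl⟩
    simp only [Set.mem_iUnion] at h1
    obtain ⟨y, hy, h2⟩ := h1
    exact ⟨⟨y, hy⟩, h2⟩
  choose y hy using hsel
  have hft : Finite t := ht
  have hinj : Function.Injective (fun q : Q ⧸ H => y q.out) := by
    intro a b hab
    have h1 := hy a.out
    have h2 := hy b.out
    have hab' : y a.out = y b.out := hab
    rw [hab'] at h1
    have h3 : dist (op (π a.out)) (op (π b.out)) ≤ ε := by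
      have := dist_triangle_right (op (π a.out)) (op (π b.out)) (y b.out : V →L[ℝ] V)
      linarith
    have h4 : dist1 (π (b.out⁻¹ * a.out)) ≤ ε := by
      have h5 : op (π (b.out⁻¹ * a.out)) - 1
          = op (π b.out)⁻¹ * (op (π a.out) - op (π b.out)) := by
        rw [map_mul, map_inv, op_mul, mul_sub, op_inv_mul]
      unfold dist1
      rw [h5]
      refine (norm_op_mul _ _).trans ?_
      rwa [← dist_eq_norm]
    have h5 : b.out⁻¹ * a.out ∈ H := Subgroup.subset_closure h4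
    have h6 : (QuotientGroup.mk b.out : Q ⧸ H) = QuotientGroup.mk a.out :=
      QuotientGroup.eq.2 h5
    rw [QuotientGroup.out_eq', QuotientGroup.out_eq'] at h6
    exact h6.symm
  have : Finite (Q ⧸ H) := Finite.of_injective _ hinj
  exact Subgroup.finiteIndex_of_finite_quotient

theorem clg : ClgStmt.{u} := by
  intro Q _ K D hK hD n π
  set M : ℕ := 2 ^ (D + 2) with hM
  have hM1 : (1 : ℝ) ≤ M := by
    have : 1 ≤ M := Nat.one_le_two_pow
    exact_mod_cast this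
  set ε : ℝ := 1 / (32 * M) with hε
  have hε0 : 0 < ε := by positivity
  refine ⟨Subgroup.closure {g : Q | dist1 (π g) ≤ ε}, finiteIndex_small π ε hε0, ?_⟩
  have hsm : ∀ g : Q, dist1 (π g) ≤ ε → 32 * (M : ℝ) * dist1 (π g) ≤ 1 := by
    intro g hg
    have h1 : 32 * (M : ℝ) * dist1 (π g) ≤ 32 * M * ε :=
      mul_le_mul_of_nonneg_left hg (by positivity)
    have h2 : 32 * (M : ℝ) * ε = 1 := by
      rw [hε]
      field_simp
    linarith
  have h0 : ∀ g h : Q, dist1 (π g) ≤ ε → dist1 (π h) ≤ ε → π g * π h = π h * π g :=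
    fun g h hg hh => comm_of_small hK D hD π g h (hsm g hg) (hsm h hh)
  have h1 : ∀ g : Q, dist1 (π g) ≤ ε → ∀ h ∈ Subgroup.closure {g : Q | dist1 (π g) ≤ ε},
      Commute (π g) (π h) := by
    intro g hg h hh
    induction hh using Subgroup.closure_induction with
    | mem x hx => exact h0 g x hg hx
    | one => rw [map_one]; exact Commute.one_right _
    | mul x y _ _ hx hy => rw [map_mul]; exact hx.mul_right hy
    | inv x _ hx => rw [map_inv]; exact hx.inv_right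
  have h2 : ∀ h ∈ Subgroup.closure {g : Q | dist1 (π g) ≤ ε},
      ∀ g ∈ Subgroup.closure {g : Q | dist1 (π g) ≤ ε}, Commute (π g) (π h) := by
    intro h hh g hg
    induction hg using Subgroup.closure_induction with
    | mem x hx => exact h1 x hx h hh
    | one => rw [map_one]; exact Commute.one_left _
    | mul x y _ _ hx hy => rw [map_mul]; exact hx.mul_left hy
    | inv x _ hx => rw [map_inv]; exact hx.inv_left
  intro g hg h hh
  exact h2 h hh g hg

end Assembly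

end Pool.Agent.NGM.H47
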