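import Pool.Agent.NGM.StmtsK

/-!
Squad NGM, row HRM: glue of the harmonic block.
-/

set_option autoImplicit false

universe u

namespace Pool.Agent.NGM.H47

theorem hrm : HrmGlue.{u} := by
  intro har bfo dim rep Q _ K D hK hD hQ
  obtain ⟨U, B, c, hB⟩ := bfo Q K D hK hD
  exact rep Q K hK U B c hB (dim Q K hK U B c hB) (har Q K D hK hD hQ)

end Pool.Agent.NGM.H47
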