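import Pool.Agent.NGM.StmtsE
import Pool.Agent.Helper19_NGM.EBK
import Pool.Agent.Helper47_NGM.Clg

/-!
Squad NGM, row VAQ: quadratic isoperimetry forces virtually cyclic groups.
-/

set_option autoImplicit false

open scoped Classical Pointwise

universe u

namespace Pool.Agent.NGM.H47

theorem gr_eq {N : Type u} [Group N] [inst : DecidableEq N] (K : Finset N) (n : ℕ) :
    gr K n = (K ^ n).card := by
  have h : inst = fun a b => Classical.propDecidable (a = b) := Subsingleton.elim _ _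
  subst h
  rfl

/-- balls of an infinite group grow at least linearly -/
theorem gr_lower {N : Type u} [Group N] [Infinite N] {K : Finset N} (hK : GenSet K) (n : ℕ) :
    n + 1 ≤ gr K n := by
  induction n with
  | zero => simp [gr]
  | succ n ih =>
    by_contra hcon
    have hle : gr K (n + 1) ≤ gr K n := by omega
    have heq : K ^ n = K ^ (n + 1) :=
      Finset.eq_of_subset_of_card_le (pow_mono' hK (Nat.le_succ n)) hle
    have hall : ∀ m, K ^ (n + m) = K ^ n := by
      intro m
      induction m with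
      | zero => rfl
      | succ m ihm =>
        rw [← add_assoc, pow_succ, ihm, ← pow_succ, ← heq]
    have hsub : ∀ g : N, g ∈ K ^ n := by
      intro g
      obtain ⟨a, ha⟩ := exists_mem_pow hK g
      have h1 := pow_mono' hK (Nat.le_add_left a n) ha
      rwa [hall a] at h1
    have hfin : Finite N := by
      refine Finite.of_injective (fun g : N => (⟨g, hsub g⟩ : ↥(K ^ n))) ?_
      intro a b hab
      simpa using hab
    exact not_finite N

/-- the elements `t ^ i * w` -/
theorem ker_count {Q : Type u} [Group Q] {K : Finset Q} (hK : GenSet K) (H : Subgroup Q)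
    (f : H →* Multiplicative ℤ) (hf : Function.Surjective f) {K' : Finset f.ker}
    (_hK' : GenSet K') : ∃ c, 1 ≤ c ∧ ∀ n, (n + 1) * gr K' n ≤ gr K (c * n) := by
  obtain ⟨t, ht⟩ := hf (Multiplicative.ofAdd 1)
  have hex : ∀ g : Q, ∃ a, g ∈ K ^ a := exists_mem_pow hK
  choose a ha using hex
  let c := a t + ∑ w ∈ K', a (w : H)
  have hct : (t : Q) ∈ K ^ c := pow_mono' hK (Nat.le_add_right _ _) (ha t)
  have hcw : ∀ w ∈ K', ((w : H) : Q) ∈ K ^ c := by
    intro w hw
    refine pow_mono' hK ?_ (ha (w : H))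
    have := Finset.single_le_sum (f := fun w : f.ker => a (w : H)) (fun i _ => Nat.zero_le _) hw
    exact this.trans (Nat.le_add_left _ _)
  have hpow : ∀ n, ∀ w ∈ K' ^ n, ((w : H) : Q) ∈ K ^ (c * n) := by
    intro n
    induction n with
    | zero =>
      intro w hw
      rw [pow_zero, Finset.mem_one] at hw
      subst hw
      simp
    | succ n ih =>
      intro w hw
      rw [pow_succ, Finset.mem_mul] at hw
      obtain ⟨x, hx, y, hy, rfl⟩ := hw
      rw [mul_add, pow_add, mul_one]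
      exact Finset.mul_mem_mul (ih x hx) (hcw y hy)
  refine ⟨2 * c + 1, by omega, fun n => ?_⟩
  have hmaps : ∀ p ∈ Finset.range (n + 1) ×ˢ (K' ^ n),
      ((t : Q) ^ p.1 * ((p.2 : H) : Q)) ∈ K ^ ((2 * c + 1) * n) := by
    rintro ⟨i, w⟩ hp
    obtain ⟨hi, hw⟩ := Finset.mem_product.1 hp
    have hi' : i ≤ n := by
      have := Finset.mem_range.1 hi
      simp only at this
      omega
    have h1 : (t : Q) ^ i ∈ K ^ (c * i) := by
      rw [pow_mul]
      exact Finset.pow_mem_pow hct
    have h2 : ((t : Q) ^ i * ((w : H) : Q)) ∈ K ^ (c * i + c * n) := by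
      rw [pow_add]
      exact Finset.mul_mem_mul h1 (hpow n w hw)
    refine pow_mono' hK ?_ h2
    nlinarith
  have hinj : Set.InjOn (fun p : ℕ × f.ker => ((t : Q) ^ p.1 * ((p.2 : H) : Q)))
      (Finset.range (n + 1) ×ˢ (K' ^ n) : Finset (ℕ × f.ker)) := by
    rintro ⟨i, w⟩ _ ⟨j, v⟩ _ h
    have h1 : t ^ i * (w : H) = t ^ j * (v : H) := by
      apply Subtype.ext
      push_cast
      exact h
    have h2 : f (t ^ i * (w : H)) = f (t ^ j * (v : H)) := by rw [h1]
    have hw : f (w : H) = 1 := w.2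
    have hv : f (v : H) = 1 := v.2
    rw [map_mul, map_mul, map_pow, map_pow, ht, hw, hv, mul_one, mul_one] at h2
    have h3 : i = j := by
      have h4 := congrArg Multiplicative.toAdd h2
      simp only [toAdd_pow, toAdd_ofAdd, nsmul_eq_mul, mul_one] at h4
      exact_mod_cast h4
    subst h3
    have h5 := mul_left_cancel h1
    rw [Prod.mk.injEq]
    exact ⟨rfl, Subtype.ext h5⟩
  have h := Finset.card_le_card_of_injOn _ hmaps hinj
  rw [Finset.card_product, Finset.card_range] at h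
  rw [gr_eq, gr_eq]
  exact h

theorem exists_gens {Q : Type u} [Group Q] (h : Group.FG Q) : ∃ K : Finset Q, GenSet K := by
  obtain ⟨T, hT⟩ := Group.fg_def.1 h
  refine ⟨insert 1 (T ∪ T⁻¹), Finset.mem_insert_self _ _, ?_, ?_⟩
  · intro s hs
    simp only [Finset.mem_insert, Finset.mem_union, Finset.mem_inv'] at hs ⊢
    rcases hs with rfl | hs | hs
    · left; simp
    · right; right; simpa using hs
    · right; left; exact hs
  · rw [eq_top_iff, ← hT, Subgroup.closure_le]
    intro t ht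
    refine Subgroup.subset_closure ?_
    simp only [Finset.coe_insert, Finset.coe_union]
    exact Or.inr (Or.inl ht)

/-- Row VAQ. -/
theorem vaq (hHrm : HrmStmt.{u}) (hViz : VizStmt.{u}) (Q : Type u) [Group Q]
    (hfg : ∀ H : Subgroup Q, H.FG) (K : Finset Q) (hK : GenSet K) (D : ℕ) (hD : PolyIo K D)
    (hI : ∀ e : ℝ, 0 < e → ∃ A : Finset Q, A.Nonempty ∧
      ((bd K A).card : ℝ) ^ 2 ≤ e * (A.card : ℝ)) :
    ∃ q : Q, (Subgroup.zpowers q).FiniteIndex := by
  rcases finite_or_infinite Q with hfin | hinf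
  · exact ⟨1, inferInstance⟩
  obtain ⟨n, π, b, hb, hbu⟩ := hHrm Q K D hK hD hinf
  obtain ⟨H, f, hH, hf⟩ := hViz Q K D hK hD n π b hb hbu
  have hNfg : Group.FG f.ker := by
    have h1 : Group.FG (f.ker.map H.subtype) := (Group.fg_iff_subgroup_fg _).2 (hfg _)
    exact Group.fg_of_surjective
      (f := ((Subgroup.equivMapOfInjective f.ker H.subtype H.subtype_injective).symm).toMonoidHom)
      (MulEquiv.surjective _)
  obtain ⟨K', hK'⟩ := exists_gens hNfg
  obtain ⟨c, hc, hcount⟩ := ker_count hK H f hf hK'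
  have hNfin : Finite f.ker := by
    by_contra hcon
    rw [not_finite_iff_infinite] at hcon
    have hc0 : (0 : ℝ) < c := by exact_mod_cast hc
    obtain ⟨A, hAne, hA⟩ := hI (1 / (16 * (c : ℝ) ^ 2)) (by positivity)
    have hex : ∃ n, 2 * A.card ≤ (n + 1) ^ 2 := ⟨2 * A.card, by nlinarith⟩
    set m := Nat.find hex with hm
    have hm1 : 2 * A.card ≤ (m + 1) ^ 2 := Nat.find_spec hex
    have hApos : 0 < A.card := Finset.card_pos.2 hAne
    have hm0 : m ≠ 0 := by
      intro h0
      rw [h0] at hm1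
      omega
    have hm2 : m ^ 2 < 2 * A.card := by
      have := Nat.find_min hex (m := m - 1) (by omega)
      have e : m - 1 + 1 = m := by omega
      rw [e] at this
      omega
    have hgr : 2 * A.card ≤ (K ^ (c * m)).card := by
      have h1 := hcount m
      have h2 := gr_lower hK' m
      have h3 : (m + 1) ^ 2 ≤ gr K (c * m) := by
        calc (m + 1) ^ 2 = (m + 1) * (m + 1) := by ring
          _ ≤ (m + 1) * gr K' m := Nat.mul_le_mul_left _ h2
          _ ≤ gr K (c * m) := h1
      exact hm1.trans h3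
    have hcsc := H19.csc K A (c * m) hgr hAne
    have h1 : (A.card : ℝ) ≤ 2 * (c * m) * (bd K A).card := by exact_mod_cast hcsc
    have h2 : ((m : ℝ)) ^ 2 ≤ 2 * A.card := by exact_mod_cast hm2.le
    have h3 : (0 : ℝ) < A.card := by exact_mod_cast hApos
    have h4 : (A.card : ℝ) ^ 2 ≤ 4 * (c : ℝ) ^ 2 * m ^ 2 * ((bd K A).card : ℝ) ^ 2 := by
      have := pow_le_pow_left₀ h3.le h1 2
      calc (A.card : ℝ) ^ 2 ≤ (2 * (c * m) * ((bd K A).card : ℝ)) ^ 2 := this
        _ = _ := by ring
    have h5 : 4 * (c : ℝ) ^ 2 * m ^ 2 * ((bd K A).card : ℝ) ^ 2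
        ≤ 4 * (c : ℝ) ^ 2 * (2 * A.card) * (1 / (16 * (c : ℝ) ^ 2) * A.card) := by
      gcongr
    have h6 : 4 * (c : ℝ) ^ 2 * (2 * A.card) * (1 / (16 * (c : ℝ) ^ 2) * A.card)
        = (A.card : ℝ) ^ 2 / 2 := by
      field_simp
      ring
    have h7 : (0 : ℝ) < (A.card : ℝ) ^ 2 := by positivity
    linarith
  obtain ⟨t, ht⟩ := hf (Multiplicative.ofAdd 1)
  refine ⟨(t : Q), ?_⟩
  have h1 : (Subgroup.zpowers t).FiniteIndex := by
    have hsur : Function.Surjective
        (fun w : f.ker => ((w : H) : H ⧸ Subgroup.zpowers t)) := by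
      intro x
      obtain ⟨h, rfl⟩ := QuotientGroup.mk_surjective x
      refine ⟨⟨h * t ^ (-(Multiplicative.toAdd (f h))), ?_⟩, ?_⟩
      · rw [MonoidHom.mem_ker, map_mul, map_zpow, ht]
        apply Multiplicative.toAdd.injective
        simp
      · rw [QuotientGroup.eq]
        refine ⟨Multiplicative.toAdd (f h), ?_⟩
        simp only
        group
    have : Finite (H ⧸ Subgroup.zpowers t) := Finite.of_surjective _ hsur
    exact Subgroup.finiteIndex_of_finite_quotient
  have h2 : (Subgroup.zpowers (t : Q)) = (Subgroup.zpowers t).map H.subtype := by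
    rw [MonoidHom.map_zpowers]
    rfl
  rw [h2]
  constructor
  rw [Subgroup.index_map_subtype]
  exact mul_ne_zero h1.index_ne_zero hH.index_ne_zero

/-- Row VAQ, form of `VaqStmt`. -/
theorem vaqS (hHrm : HrmStmt.{u}) (hViz : VizStmt.{u}) : VaqStmt.{u} := by
  intro Q _ K hfg hK hI
  obtain ⟨D, hD⟩ := H19.core hK 2 (fun e he => hI e he)
  obtain ⟨q, hq⟩ := vaq hHrm hViz Q hfg K hK D hD (fun e he => by
    obtain ⟨A, h1, h2⟩ := hI e he
    exact ⟨A, h1, by simpa using h2⟩)
  refine ⟨Subgroup.zpowers q, hq.index_ne_zero, hfg _, ?_⟩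
  rintro _ ⟨i, rfl⟩ _ ⟨j, rfl⟩
  show q ^ i * q ^ j = q ^ j * q ^ i
  rw [← zpow_add, ← zpow_add, add_comm]

/-- Row VAG. -/
theorem vag : VagStmt.{u} := by
  intro G _ s hfg hs hbot hL
  have hex : ∀ L : s, ∃ P : Subgroup G, P.FiniteIndex ∧
      ∀ a ∈ P, ∀ b ∈ P, a * b * a⁻¹ * b⁻¹ ∈ (L : Subgroup G) := by
    rintro ⟨L, hLs⟩
    obtain ⟨hN, H, hH, _, hcomm⟩ := hL L hLs
    set N := Subgroup.normalizer (L : Set G) with hNdef
    set φ : N →* NQ L := QuotientGroup.mk' (L.subgroupOf N) with hφ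
    refine ⟨(H.comap φ).map N.subtype, ⟨?_⟩, ?_⟩
    · rw [Subgroup.index_map_subtype]
      refine mul_ne_zero ?_ hN
      rw [Subgroup.index_comap_of_surjective _ (QuotientGroup.mk'_surjective _)]
      exact hH
    · rintro _ ⟨a, ha, rfl⟩ _ ⟨b, hb, rfl⟩
      have h1 : φ a * φ b = φ b * φ a := hcomm _ ha _ hb
      have h2 : φ (a * b * a⁻¹ * b⁻¹) = 1 := by
        rw [map_mul, map_mul, map_mul, map_inv, map_inv, h1]
        group
      have h3 : a * b * a⁻¹ * b⁻¹ ∈ L.subgroupOf N := (QuotientGroup.eq_one_iff _).1 h2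
      exact h3
  choose P hP1 hP2 using hex
  have : Finite s := hs
  refine ⟨⨅ L, P L, ?_, hfg _, ?_⟩
  · have h1 : (⨅ L, P L).FiniteIndex := Subgroup.finiteIndex_iInf hP1
    exact h1.index_ne_zero
  · intro a ha b hb
    have h1 : a * b * a⁻¹ * b⁻¹ ∈ sInf s := by
      rw [Subgroup.mem_sInf]
      intro L hLs
      exact hP2 ⟨L, hLs⟩ a ((Subgroup.mem_iInf.1 ha) _) b ((Subgroup.mem_iInf.1 hb) _)
    rw [hbot, Subgroup.mem_bot] at h1
    exact mul_inv_eq_iff_eq_mul.1 (mul_inv_eq_one.1 h1)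

end Pool.Agent.NGM.H47
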