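import Pool.Agent.NGM.StmtsB

/-!
Squad NGM, row BAU: bounded activity gives small boundaries.
-/

set_option autoImplicit false

open scoped Classical Pointwise

universe u v w

namespace Pool.Agent.NGM.H47

section Median

variable {G : Type u} [Group G] {X : Type v} [MulAction G X]

/-- points of `A` with an edge to a point of `A` of another colour -/
noncomputable def cst {ι : Type w} (S : Finset G) (c : X → ι) (A : Finset X) : Finset X :=
  A.filter fun x => ∃ s ∈ S, s • x ∈ A ∧ c (s • x) ≠ c x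

theorem med {ι : Type w} (S : Finset G) (c : X → ι) (A : Finset X) (hA : A.Nonempty) (k : ℕ)
    (hk : (cst S c A).card ≤ k) :
    ∃ j, (A.filter fun x => c x = j).Nonempty ∧
      (bd S (A.filter fun x => c x = j)).card * A.card ≤
        ((bd S A).card + k) * (A.filter fun x => c x = j).card := by
  by_contra hcon
  push Not at hcon
  set J := A.image c with hJ
  have hJne : J.Nonempty := hA.image c
  have hne : ∀ j ∈ J, (A.filter fun x => c x = j).Nonempty := by
    intro j hj
    obtain ⟨x, hx, rfl⟩ := Finset.mem_image.1 hj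
    exact ⟨x, Finset.mem_filter.2 ⟨hx, rfl⟩⟩
  have hsumA : ∑ j ∈ J, (A.filter fun x => c x = j).card = A.card :=
    (Finset.card_eq_sum_card_image c A).symm
  have hsub : ∀ j ∈ J, (bd S (A.filter fun x => c x = j)).card ≤
      ((bd S A ∪ cst S c A).filter fun x => c x = j).card := by
    intro j _
    apply Finset.card_le_card
    intro x hx
    obtain ⟨hx1, s, hs, hx2⟩ := Finset.mem_filter.1 hx
    obtain ⟨hxA, hxj⟩ := Finset.mem_filter.1 hx1
    refine Finset.mem_filter.2 ⟨?_, hxj⟩
    by_cases h : s • x ∈ A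
    · refine Finset.mem_union_right _ (Finset.mem_filter.2 ⟨hxA, s, hs, h, ?_⟩)
      intro h2
      exact hx2 (Finset.mem_filter.2 ⟨h, h2.trans hxj⟩)
    · exact Finset.mem_union_left _ (Finset.mem_filter.2 ⟨hxA, s, hs, h⟩)
  have hsumB : ∑ j ∈ J, (bd S (A.filter fun x => c x = j)).card ≤ (bd S A).card + k := by
    calc ∑ j ∈ J, (bd S (A.filter fun x => c x = j)).card
        ≤ ∑ j ∈ J, ((bd S A ∪ cst S c A).filter fun x => c x = j).card :=
          Finset.sum_le_sum hsub
      _ = (bd S A ∪ cst S c A).card := by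
          symm
          apply Finset.card_eq_sum_card_fiberwise
          intro x hx
          have hxA : x ∈ A := by
            rcases Finset.mem_union.1 hx with h | h
            · exact (Finset.mem_filter.1 h).1
            · exact (Finset.mem_filter.1 h).1
          exact Finset.mem_image_of_mem c hxA
      _ ≤ (bd S A).card + (cst S c A).card := Finset.card_union_le _ _
      _ ≤ (bd S A).card + k := by omega
  have hlt : ∑ j ∈ J, ((bd S A).card + k) * (A.filter fun x => c x = j).card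
      < ∑ j ∈ J, (bd S (A.filter fun x => c x = j)).card * A.card := by
    apply Finset.sum_lt_sum_of_nonempty hJne
    intro j hj
    exact hcon j (hne j hj)
  rw [← Finset.mul_sum, hsumA, ← Finset.sum_mul] at hlt
  have h3 := Nat.mul_le_mul_right A.card hsumB
  omega

theorem mem_cst {ι : Type w} {S : Finset G} {c : X → ι} {A : Finset X} {x : X} :
    x ∈ cst S c A ↔ x ∈ A ∧ ∃ s ∈ S, s • x ∈ A ∧ c (s • x) ≠ c x := by
  unfold cst
  exact Finset.mem_filter

theorem med' {ι : Type w} (S : Finset G) (c : X → ι) (A : Finset X) (hA : A.Nonempty) (k : ℕ)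
    (hk : (cst S c A).card ≤ k) :
    ∃ A₁ ⊆ A, A₁.Nonempty ∧ (∃ j, ∀ x, x ∈ A₁ ↔ x ∈ A ∧ c x = j) ∧
      (bd S A₁).card * A.card ≤ ((bd S A).card + k) * A₁.card := by
  obtain ⟨j, h1, h2⟩ := med S c A hA k hk
  exact ⟨_, Finset.filter_subset _ _, h1, ⟨j, fun x => Finset.mem_filter⟩, h2⟩

/-- iteration of cuts -/
theorem iter_cut (S : Finset G) (c : ℝ) (hc : 0 < c) (d : ℝ) (hd : 1 ≤ d)
    (hstep : ∀ A : Finset X, 2 ≤ A.card → ∃ A₁ ⊆ A, A₁.Nonempty ∧
      (A₁.card : ℝ) ≤ (1 - 1 / (2 * d)) * A.card ∧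
      ((bd S A₁).card : ℝ) / A₁.card ≤ (((bd S A).card : ℝ) + c) / A.card)
    (L : ℝ) (hL : 2 ≤ L) :
    ∀ n : ℕ, ∀ A : Finset X, A.card = n → A.Nonempty → L < A.card →
      ∃ A' ⊆ A, A'.Nonempty ∧ (A'.card : ℝ) ≤ L ∧
      ((bd S A').card : ℝ) / A'.card ≤
        ((bd S A).card : ℝ) / A.card + 2 * d * c / L - (2 * d - 1) * c / A.card := by
  intro n
  induction n using Nat.strong_induction_on with
  | _ n ih =>
    intro A hn hA hLA
    have h2 : 2 ≤ A.card := by
      have : (2 : ℝ) ≤ A.card := by linarith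
      exact_mod_cast this
    obtain ⟨A₁, hsub, hne, hcard, hrat⟩ := hstep A h2
    have ha : (0 : ℝ) < A.card := by linarith
    have ha1 : (0 : ℝ) < A₁.card := by exact_mod_cast Finset.card_pos.2 hne
    have hL0 : (0 : ℝ) < L := by linarith
    have hd0 : (0 : ℝ) < d := by linarith
    have e1 : (((bd S A).card : ℝ) + c) / A.card = ((bd S A).card : ℝ) / A.card + c / A.card := by
      ring
    rw [e1] at hrat
    by_cases hle : (A₁.card : ℝ) ≤ L
    · refine ⟨A₁, hsub, hne, hle, hrat.trans ?_⟩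
      have h3 : c / A.card ≤ 2 * d * c / L - (2 * d - 1) * c / A.card := by
        have h4 : 2 * d * c / A.card ≤ 2 * d * c / L := by
          apply div_le_div_of_nonneg_left _ hL0 hLA.le
          positivity
        have h5 : (2 * d - 1) * c / A.card = 2 * d * c / A.card - c / A.card := by ring
        rw [h5]
        linarith
      linarith
    · push Not at hle
      have hlt : A₁.card < n := by
        rw [← hn]
        have h3 : (A₁.card : ℝ) < A.card := by
          have h4 : 0 < 1 / (2 * d) := by positivity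
          nlinarith
        exact_mod_cast h3
      obtain ⟨A', hs', hne', hc', hr'⟩ := ih A₁.card hlt A₁ rfl hne hle
      refine ⟨A', hs'.trans hsub, hne', hc', hr'.trans ?_⟩
      have h3 : c / A.card + (2 * d - 1) * c / A.card ≤ (2 * d - 1) * c / A₁.card := by
        have h4 : c / A.card + (2 * d - 1) * c / A.card = 2 * d * c / A.card := by ring
        rw [h4, div_le_div_iff₀ ha ha1]
        have h5 : 2 * d * (A₁.card : ℝ) ≤ (2 * d - 1) * A.card := by
          have h6 : 2 * d * (A₁.card : ℝ) ≤ 2 * d * ((1 - 1 / (2 * d)) * A.card) :=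
            mul_le_mul_of_nonneg_left hcard (by positivity)
          have h7 : 2 * d * ((1 - 1 / (2 * d)) * (A.card : ℝ)) = (2 * d - 1) * A.card := by
            field_simp
          linarith
        nlinarith
      linarith

theorem iter_cut' (S : Finset G) (c : ℝ) (hc : 0 < c) (d : ℝ) (hd : 1 ≤ d)
    (hstep : ∀ A : Finset X, 2 ≤ A.card → ∃ A₁ ⊆ A, A₁.Nonempty ∧
      (A₁.card : ℝ) ≤ (1 - 1 / (2 * d)) * A.card ∧
      ((bd S A₁).card : ℝ) / A₁.card ≤ (((bd S A).card : ℝ) + c) / A.card)
    (L : ℝ) (hL : 2 ≤ L) (A : Finset X) (hA : A.Nonempty) :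
    ∃ A' ⊆ A, A'.Nonempty ∧ (A'.card : ℝ) ≤ L ∧
      ((bd S A').card : ℝ) / A'.card ≤ ((bd S A).card : ℝ) / A.card + 2 * d * c / L := by
  by_cases h : (A.card : ℝ) ≤ L
  · refine ⟨A, subset_rfl, hA, h, ?_⟩
    have : 0 ≤ 2 * d * c / L := by positivity
    linarith
  · push Not at h
    obtain ⟨A', h1, h2, h3, h4⟩ := iter_cut S c hc d hd hstep L hL A.card A rfl hA h
    refine ⟨A', h1, h2, h3, h4.trans ?_⟩
    have : 0 ≤ (2 * d - 1) * c / A.card := by
      apply div_nonneg _ (Nat.cast_nonneg _)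
      apply mul_nonneg _ hc.le
      linarith
    linarith

/-- from bounded cuts to `W1` with exponent two -/
theorem w1_of_cuts (S : Finset G) (c : ℝ) (hc : 0 < c) (d : ℝ) (hd : 1 ≤ d)
    (hstep : ∀ A : Finset X, 2 ≤ A.card → ∃ A₁ ⊆ A, A₁.Nonempty ∧
      (A₁.card : ℝ) ≤ (1 - 1 / (2 * d)) * A.card ∧
      ((bd S A₁).card : ℝ) / A₁.card ≤ (((bd S A).card : ℝ) + c) / A.card) :
    W1 S X 2 := by
  intro e he
  set D₀ : ℝ := 2 * d * c with hD₀
  have hD0 : 0 < D₀ := by positivity
  set L : ℝ := 4 * D₀ ^ 2 / e + 2 with hLdef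
  have hL2 : 2 ≤ L := by
    have : 0 ≤ 4 * D₀ ^ 2 / e := by positivity
    linarith
  have hL0 : 0 < L := by linarith
  refine ⟨D₀ / L, by positivity, {1}, fun F hF hbd => ?_⟩
  obtain ⟨A, hAF, hA, hAL, hr⟩ := iter_cut' S c hc d hd hstep L hL2 F hF
  refine ⟨A, ?_, hA, ?_⟩
  · intro x hx
    have := hAF hx
    rw [Finset.singleton_smul, one_smul]
    exact this
  · have hFc : (0 : ℝ) < F.card := by exact_mod_cast Finset.card_pos.2 hF
    have hAc : (0 : ℝ) < A.card := by exact_mod_cast Finset.card_pos.2 hA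
    have h1 : ((bd S F).card : ℝ) / F.card ≤ D₀ / L := by
      rw [div_le_iff₀ hFc]
      exact hbd
    have h2 : ((bd S A).card : ℝ) ≤ (2 * (D₀ / L)) * A.card := by
      rw [← div_le_iff₀ hAc]
      linarith
    have h3 : ((bd S A).card : ℝ) ^ 2 ≤ ((2 * (D₀ / L)) * A.card) ^ 2 :=
      pow_le_pow_left₀ (Nat.cast_nonneg _) h2 2
    have h4 : ((2 * (D₀ / L)) * (A.card : ℝ)) ^ 2 ≤ e * A.card := by
      have h5 : ((2 * (D₀ / L)) * (A.card : ℝ)) ^ 2
          = (4 * D₀ ^ 2 / L ^ 2 * A.card) * A.card := by ring_nf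
      rw [h5]
      apply mul_le_mul_of_nonneg_right _ hAc.le
      have h6 : 4 * D₀ ^ 2 / L ^ 2 * (A.card : ℝ) ≤ 4 * D₀ ^ 2 / L ^ 2 * L :=
        mul_le_mul_of_nonneg_left hAL (by positivity)
      have h7 : 4 * D₀ ^ 2 / L ^ 2 * L = 4 * D₀ ^ 2 / L := by
        field_simp
      have h8 : 4 * D₀ ^ 2 / L ≤ e := by
        rw [div_le_iff₀ hL0]
        have h9 : e * L = 4 * D₀ ^ 2 + 2 * e := by
          rw [hLdef]
          field_simp
        linarith
      linarith
    simpa using h3.trans h4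

end Median

section Words

variable {α : ℕ → Type v}

/-- agreement from the index `m` on -/
def Ev (m : ℕ) (x y : ∀ i, α i) : Prop := ∀ i, m ≤ i → x i = y i

theorem Ev.symm {m : ℕ} {x y : ∀ i, α i} (h : Ev m x y) : Ev m y x :=
  fun i hi => (h i hi).symm

theorem Ev.trans {m : ℕ} {x y z : ∀ i, α i} (h : Ev m x y) (h' : Ev m y z) : Ev m x z :=
  fun i hi => (h i hi).trans (h' i hi)

theorem Ev.mono {m m' : ℕ} (hm : m ≤ m') {x y : ∀ i, α i} (h : Ev m x y) : Ev m' x y :=
  fun i hi => h i (hm.trans hi)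

/-- cofinality -/
def cof (α : ℕ → Type v) : Setoid (∀ i, α i) where
  r x y := ∃ m, Ev m x y
  iseqv :=
    { refl := fun _ => ⟨0, fun _ _ => rfl⟩
      symm := fun ⟨m, h⟩ => ⟨m, h.symm⟩
      trans := fun ⟨m, h⟩ ⟨m', h'⟩ =>
        ⟨max m m', (h.mono (le_max_left _ _)).trans (h'.mono (le_max_right _ _))⟩ }

/-- finitely many pairwise cofinal words are in one block -/
theorem exists_block (A : Finset (∀ i, α i)) (x₀ : ∀ i, α i)
    (h : ∀ x ∈ A, ∃ m, Ev m x x₀) : ∃ m, ∀ x ∈ A, Ev m x x₀ := by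
  choose! f hf using h
  exact ⟨A.sup f, fun x hx => (hf x hx).mono (Finset.le_sup hx)⟩

/-- finitely many words are separated by their beginnings -/
theorem exists_sep (A : Finset (∀ i, α i)) :
    ∃ m, ∀ x ∈ A, ∀ y ∈ A, (∀ i < m, x i = y i) → x = y := by
  have h : ∀ p : (∀ i, α i) × (∀ i, α i), ∃ m, (∀ i < m, p.1 i = p.2 i) → p.1 = p.2 := by
    intro p
    by_cases hp : p.1 = p.2
    · exact ⟨0, fun _ => hp⟩
    · obtain ⟨i, hi⟩ := Function.ne_iff.1 hp
      exact ⟨i + 1, fun h => absurd (h i (Nat.lt_succ_self i)) hi⟩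
  choose f hf using h
  refine ⟨(A ×ˢ A).sup f, fun x hx y hy hxy => ?_⟩
  apply hf (x, y)
  intro i hi
  exact hxy i (lt_of_lt_of_le hi (Finset.le_sup (f := f) (Finset.mk_mem_product hx hy)))

variable {G : Type u} [Group G] [∀ i, Fintype (α i)] [MulAction G (∀ i, α i)]

/-- few points leave a block -/
theorem leave_block (s : G) (m : ℕ) (y : ∀ i, α i) (A : Finset (∀ i, α i)) :
    (A.filter fun x => Ev m x y ∧ ¬ Ev m (s • x) y).card ≤ (actv α s m).ncard := by
  rw [Set.ncard_eq_toFinset_card' (actv α s m)]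
  refine Finset.card_le_card_of_injOn (fun x => fun i : Fin m => x i) ?_ ?_
  · intro x hx
    obtain ⟨_, h1, h2⟩ := Finset.mem_filter.1 (Finset.mem_coe.1 hx)
    simp only [Set.coe_toFinset]
    refine ⟨x, fun _ => rfl, ?_⟩
    by_contra hcon
    push Not at hcon
    apply h2
    intro i hi
    rw [hcon i hi]
    exact h1 i hi
  · intro x hx x' hx' h
    obtain ⟨_, h1, _⟩ := Finset.mem_filter.1 (Finset.mem_coe.1 hx)
    obtain ⟨_, h1', _⟩ := Finset.mem_filter.1 (Finset.mem_coe.1 hx')
    funext i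
    by_cases hi : i < m
    · exact congrFun h ⟨i, hi⟩
    · rw [h1 i (by omega), h1' i (by omega)]

/-- few points enter a block -/
theorem enter_block (s : G) (m : ℕ) (y : ∀ i, α i) (A : Finset (∀ i, α i)) :
    (A.filter fun x => ¬ Ev m x y ∧ Ev m (s • x) y).card ≤ (actv α s⁻¹ m).ncard := by
  refine le_trans ?_ (leave_block s⁻¹ m y (A.image fun x => s • x))
  refine Finset.card_le_card_of_injOn (fun x => s • x) ?_ ?_
  · intro x hx
    obtain ⟨hA, h1, h2⟩ := Finset.mem_filter.1 (Finset.mem_coe.1 hx)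
    refine Finset.mem_coe.2 (Finset.mem_filter.2 ⟨Finset.mem_image_of_mem _ hA, h2, ?_⟩)
    rw [inv_smul_smul]
    exact h1
  · intro x _ x' _ h
    exact smul_left_cancel s h

/-- few points leave their cofinality class -/
theorem leave_class (s : G) (C : ℕ) (hC : ∀ m, (actv α s m).ncard ≤ C)
    (A : Finset (∀ i, α i)) : (A.filter fun x => ¬ ∃ m, Ev m (s • x) x).card ≤ C := by
  obtain ⟨m, hm⟩ := exists_sep (A.filter fun x => ¬ ∃ m, Ev m (s • x) x)
  refine le_trans ?_ (hC m)
  rw [Set.ncard_eq_toFinset_card' (actv α s m)]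
  refine Finset.card_le_card_of_injOn (fun x => fun i : Fin m => x i) ?_ ?_
  · intro x hx
    obtain ⟨_, h1⟩ := Finset.mem_filter.1 (Finset.mem_coe.1 hx)
    simp only [Set.coe_toFinset]
    refine ⟨x, fun _ => rfl, ?_⟩
    by_contra hcon
    push Not at hcon
    exact h1 ⟨m, hcon⟩
  · intro x hx x' hx' h
    exact hm x (Finset.mem_coe.1 hx) x' (Finset.mem_coe.1 hx') fun i hi => congrFun h ⟨i, hi⟩

variable {S : Finset G} {C : ℕ}

theorem cst_block (hS : ∀ s ∈ S, s⁻¹ ∈ S) (hC : ∀ s ∈ S, ∀ m, (actv α s m).ncard ≤ C)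
    (m : ℕ) (y : ∀ i, α i) (A : Finset (∀ i, α i)) :
    (cst S (fun x => Ev m x y) A).card ≤ 2 * C * S.card := by
  have h1 : cst S (fun x => Ev m x y) A ⊆ S.biUnion fun s =>
      (A.filter fun x => Ev m x y ∧ ¬ Ev m (s • x) y) ∪
        (A.filter fun x => ¬ Ev m x y ∧ Ev m (s • x) y) := by
    intro x hx
    obtain ⟨hA, s, hs, _, hne⟩ := mem_cst.1 hx
    refine Finset.mem_biUnion.2 ⟨s, hs, ?_⟩
    by_cases h : Ev m x y
    · refine Finset.mem_union_left _ (Finset.mem_filter.2 ⟨hA, h, ?_⟩)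
      intro h2
      exact hne (propext ⟨fun _ => h, fun _ => h2⟩)
    · refine Finset.mem_union_right _ (Finset.mem_filter.2 ⟨hA, h, ?_⟩)
      by_contra h2
      exact hne (propext ⟨fun h3 => absurd h3 h2, fun h3 => absurd h3 h⟩)
  refine (Finset.card_le_card h1).trans (Finset.card_biUnion_le.trans ?_)
  calc ∑ s ∈ S, ((A.filter fun x => Ev m x y ∧ ¬ Ev m (s • x) y) ∪
        (A.filter fun x => ¬ Ev m x y ∧ Ev m (s • x) y)).card
      ≤ ∑ s ∈ S, 2 * C := by
        apply Finset.sum_le_sum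
        intro s hs
        refine (Finset.card_union_le _ _).trans ?_
        have h2 := (leave_block s m y A).trans (hC s hs m)
        have h3 := (enter_block s m y A).trans (hC _ (hS s hs) m)
        omega
    _ = 2 * C * S.card := by
        rw [Finset.sum_const, smul_eq_mul, mul_comm]

theorem cst_class (hC : ∀ s ∈ S, ∀ m, (actv α s m).ncard ≤ C) (A : Finset (∀ i, α i)) :
    (cst S (fun x => (Quotient.mk (cof α) x)) A).card ≤ 2 * C * S.card := by
  have h1 : cst S (fun x => (Quotient.mk (cof α) x)) A ⊆ S.biUnion fun s =>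
      A.filter fun x => ¬ ∃ m, Ev m (s • x) x := by
    intro x hx
    obtain ⟨hA, s, hs, _, hne⟩ := mem_cst.1 hx
    refine Finset.mem_biUnion.2 ⟨s, hs, Finset.mem_filter.2 ⟨hA, ?_⟩⟩
    intro h2
    exact hne (Quotient.sound (s := cof α) h2)
  refine (Finset.card_le_card h1).trans (Finset.card_biUnion_le.trans ?_)
  calc ∑ s ∈ S, (A.filter fun x => ¬ ∃ m, Ev m (s • x) x).card
      ≤ ∑ s ∈ S, C := Finset.sum_le_sum fun s hs => leave_class s C (hC s hs) A
    _ = C * S.card := by rw [Finset.sum_const, smul_eq_mul, mul_comm]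
    _ ≤ 2 * C * S.card := by nlinarith [Nat.zero_le (C * S.card)]

/-- the balanced cut -/
theorem cut (hS : ∀ s ∈ S, s⁻¹ ∈ S) (hC : ∀ s ∈ S, ∀ m, (actv α s m).ncard ≤ C) (d : ℕ)
    (hd : 1 ≤ d) (hcard : ∀ i, Fintype.card (α i) ≤ d) (A : Finset (∀ i, α i))
    (hA : 2 ≤ A.card) : ∃ A₁ ⊆ A, A₁.Nonempty ∧ 2 * d * A₁.card ≤ (2 * d - 1) * A.card ∧
      (bd S A₁).card * A.card ≤ ((bd S A).card + 2 * C * S.card) * A₁.card := by
  have hAne : A.Nonempty := Finset.card_pos.1 (by omega)
  by_cases hheavy : ∃ m, ∃ y : ∀ i, α i, A.card < 2 * (A.filter fun x => Ev m x y).card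
  · set m := Nat.find hheavy with hm
    obtain ⟨y, hy⟩ := Nat.find_spec hheavy
    rw [← hm] at hy
    have hm0 : m ≠ 0 := by
      intro h0
      rw [h0] at hy
      have h1 : (A.filter fun x => Ev 0 x y).card ≤ 1 := by
        rw [Finset.card_le_one]
        intro a ha b hb
        have ha' := (Finset.mem_filter.1 ha).2
        have hb' := (Finset.mem_filter.1 hb).2
        funext i
        rw [ha' i (Nat.zero_le _), hb' i (Nat.zero_le _)]
      omega
    obtain ⟨m', hm'⟩ := Nat.exists_eq_succ_of_ne_zero hm0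
    have hlight : ∀ z : ∀ i, α i, 2 * (A.filter fun x => Ev m' x z).card ≤ A.card := by
      intro z
      by_contra hcon
      push Not at hcon
      exact Nat.find_min hheavy (m := m') (by omega) ⟨z, hcon⟩
    -- a child block with many points
    obtain ⟨z, hz⟩ : ∃ z : ∀ i, α i,
        (A.filter fun x => Ev m x y).card ≤ d * (A.filter fun x => Ev m' x z).card := by
      by_contra hcon
      push Not at hcon
      have hsub : (A.filter fun x => Ev m x y) ⊆ Finset.univ.biUnion fun a : α m' =>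
          A.filter fun x => Ev m' x (Function.update y m' a) := by
        intro x hx
        obtain ⟨hxA, hxE⟩ := Finset.mem_filter.1 hx
        refine Finset.mem_biUnion.2 ⟨x m', Finset.mem_univ _, Finset.mem_filter.2 ⟨hxA, ?_⟩⟩
        intro i hi
        by_cases h : i = m'
        · subst h
          simp
        · rw [Function.update_of_ne h]
          exact hxE i (by omega)
      have h1 : (A.filter fun x => Ev m x y).card ≤ ∑ a : α m',
          (A.filter fun x => Ev m' x (Function.update y m' a)).card :=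
        (Finset.card_le_card hsub).trans Finset.card_biUnion_le
      have hne : (Finset.univ : Finset (α m')).Nonempty := by
        obtain ⟨x, _⟩ := hAne
        exact ⟨x m', Finset.mem_univ _⟩
      have h2 : ∑ a : α m', d * (A.filter fun x => Ev m' x (Function.update y m' a)).card
          < ∑ _a : α m', (A.filter fun x => Ev m x y).card := by
        apply Finset.sum_lt_sum_of_nonempty hne
        intro a _
        exact hcon _
      rw [← Finset.mul_sum, Finset.sum_const, smul_eq_mul, Finset.card_univ] at h2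
      have h3 := Nat.mul_le_mul_left d h1
      have h4 := Nat.mul_le_mul_right (A.filter fun x => Ev m x y).card (hcard m')
      omega
    obtain ⟨A₁, hA₁, hj1, ⟨j, hj⟩, hj2⟩ := med' S (fun x => Ev m' x z) A hAne (2 * C * S.card)
      (cst_block hS hC m' z A)
    refine ⟨A₁, hA₁, hj1, ?_, hj2⟩
    have hsplit := Finset.card_filter_add_card_filter_not (s := A) (fun x => Ev m' x z)
    by_cases hjt : j
    · have e : A₁ = A.filter fun x => Ev m' x z := by
        ext x
        rw [hj x, Finset.mem_filter]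
        constructor
        · rintro ⟨h1, h⟩
          refine ⟨h1, ?_⟩
          have h' : Ev m' x z = j := h
          rw [h']
          exact hjt
        · rintro ⟨h1, h⟩
          exact ⟨h1, propext ⟨fun _ => hjt, fun _ => h⟩⟩
      rw [e]
      have h1 := hlight z
      have h2 : 2 * d * (A.filter fun x => Ev m' x z).card ≤ d * A.card := by
        calc 2 * d * (A.filter fun x => Ev m' x z).card
            = d * (2 * (A.filter fun x => Ev m' x z).card) := by ring
          _ ≤ d * A.card := Nat.mul_le_mul_left _ h1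
      have h3 : d * A.card ≤ (2 * d - 1) * A.card := Nat.mul_le_mul_right _ (by omega)
      omega
    · have e : A₁ = A.filter fun x => ¬ Ev m' x z := by
        ext x
        rw [hj x, Finset.mem_filter]
        constructor
        · rintro ⟨h1, h⟩
          refine ⟨h1, ?_⟩
          have h' : Ev m' x z = j := h
          rw [h']
          exact hjt
        · rintro ⟨h1, h⟩
          exact ⟨h1, propext ⟨fun h' => absurd h' h, fun h' => absurd h' hjt⟩⟩
      rw [e]
      have h1 : A.card ≤ 2 * d * (A.filter fun x => Ev m' x z).card := by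
        have : 2 * (A.filter fun x => Ev m x y).card
            ≤ 2 * (d * (A.filter fun x => Ev m' x z).card) := Nat.mul_le_mul_left 2 hz
        have e2 : 2 * (d * (A.filter fun x => Ev m' x z).card)
            = 2 * d * (A.filter fun x => Ev m' x z).card := by ring
        omega
      have h2 : 2 * d * A.card = 2 * d * (A.filter fun x => Ev m' x z).card
          + 2 * d * (A.filter fun x => ¬ Ev m' x z).card := by
        rw [← mul_add, hsplit]
      have h3 : (2 * d - 1) * A.card = 2 * d * A.card - A.card := by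
        rw [Nat.sub_mul, one_mul]
      omega
  · push Not at hheavy
    obtain ⟨A₁, hA₁, hj1, ⟨j, hj⟩, hj2⟩ := med' S (fun x => (Quotient.mk (cof α) x)) A hAne
      (2 * C * S.card) (cst_class hC A)
    refine ⟨A₁, hA₁, hj1, ?_, hj2⟩
    obtain ⟨x₀, hx₀⟩ := hj1
    have hx₀' := ((hj x₀).1 hx₀).2
    obtain ⟨m, hm⟩ := exists_block A₁ x₀ (by
      intro x hx
      have hx' := ((hj x).1 hx).2
      exact Quotient.exact (s := cof α) (hx'.trans hx₀'.symm))
    have h1 : A₁.card ≤ (A.filter fun x => Ev m x x₀).card := by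
      apply Finset.card_le_card
      intro x hx
      exact Finset.mem_filter.2 ⟨hA₁ hx, hm x hx⟩
    have h2 := hheavy m x₀
    have h3 : 2 * d * A₁.card ≤ d * A.card := by
      calc 2 * d * A₁.card
          = d * (2 * A₁.card) := by ring
        _ ≤ d * A.card := Nat.mul_le_mul_left _ (by omega)
    have h4 : d * A.card ≤ (2 * d - 1) * A.card := Nat.mul_le_mul_right _ (by omega)
    omega

end Words

/-- Row BAU. -/
theorem bau : BauStmt.{u, v} := by
  intro G _ α _ _ S C d hS hcard hC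
  have hd : (1 : ℝ) ≤ ((d + 1 : ℕ) : ℝ) := by
    push_cast
    have : (0 : ℝ) ≤ d := Nat.cast_nonneg d
    linarith
  apply w1_of_cuts S (2 * C * S.card + 1) (by positivity) ((d + 1 : ℕ) : ℝ) hd
  intro A hA
  obtain ⟨A₁, h1, h2, h3, h4⟩ := cut hS hC (d + 1) (by omega)
    (fun i => (hcard i).trans (Nat.le_succ d)) A hA
  refine ⟨A₁, h1, h2, ?_, ?_⟩
  · have h5 : (2 * (d + 1 : ℕ) : ℝ) * A₁.card ≤ (2 * (d + 1 : ℕ) - 1) * A.card := by
      have h6 : 2 * (d + 1) - 1 + 1 = 2 * (d + 1) := by omega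
      have h7 : ((2 * (d + 1) - 1 : ℕ) : ℝ) = 2 * (d + 1 : ℕ) - 1 := by
        have : ((2 * (d + 1) - 1 + 1 : ℕ) : ℝ) = ((2 * (d + 1) : ℕ) : ℝ) := by rw [h6]
        push_cast at this ⊢
        linarith
      have h8 : ((2 * (d + 1) * A₁.card : ℕ) : ℝ) ≤ (((2 * (d + 1) - 1) * A.card : ℕ) : ℝ) := by
        exact_mod_cast h3
      rw [Nat.cast_mul, Nat.cast_mul (2 * (d + 1) - 1), h7] at h8
      push_cast at h8 ⊢
      exact h8
    have h9 : (0 : ℝ) < 2 * ((d + 1 : ℕ) : ℝ) := by linarith
    have h10 : (1 - 1 / (2 * ((d + 1 : ℕ) : ℝ))) * (A.card : ℝ)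
        = ((2 * ((d + 1 : ℕ) : ℝ) - 1) * A.card) / (2 * ((d + 1 : ℕ) : ℝ)) := by
      field_simp
    rw [h10, le_div_iff₀ h9]
    linarith
  · have ha : (0 : ℝ) < A.card := by
      have : 0 < A.card := by omega
      exact_mod_cast this
    have ha1 : (0 : ℝ) < A₁.card := by exact_mod_cast Finset.card_pos.2 h2
    rw [div_le_div_iff₀ ha1 ha]
    have h5 : (((bd S A₁).card * A.card : ℕ) : ℝ)
        ≤ ((((bd S A).card + 2 * C * S.card) * A₁.card : ℕ) : ℝ) := by exact_mod_cast h4
    push_cast at h5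
    nlinarith

end Pool.Agent.NGM.H47
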